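import Mathlib
import Pool.Agent.R653.UF.Stm
import Pool.Agent.R653.UF.P_NEWT
import Pool.Agent.R653.UF.P_SUP
import Pool.Agent.R653.UF.P_BND
import Pool.Agent.R653.UF.P_APP
import Pool.Agent.R653.UF.P_ANTI
import Pool.Agent.R653.UF.P_LOW
import Pool.Agent.R653.UF.P_REC
import Pool.Agent.R653.UF.P_DEC
import Pool.Agent.R653.UF.P_WIN
import Pool.Agent.R653.UF.P_PERT
import Pool.Agent.R653.UF.P_BOT
import Pool.Agent.R653.UF.P_TOP
import Pool.Agent.R653.UF.P_BRI
import Pool.Agent.R653.UF.P_FIN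

/-!
# Unimodality of `F_lambda` for near-rectangular partitions with at least five distinct parts

Full (positive) answer to Q1 of MP_71be06_co.
-/

namespace Pool.Agent.Results.MP_71be06_co.NearRectangular

/-- The partitions `mu ⊆ lam` (Ferrers diagrams contained) whose nonzero parts are pairwise
distinct and whose size is `n`; a partition with at most `b` parts is a function
`mu : Fin b → ℕ`, in decreasing order, padded by zeros. -/
def IsDistinctPartitionIn {b : ℕ} (lam : Fin b → ℕ) (n : ℕ) (mu : Fin b → ℕ) : Prop :=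
  (∀ i, mu i ≤ lam i) ∧ (∀ i j, i < j → mu j < mu i ∨ (mu i = 0 ∧ mu j = 0)) ∧ ∑ i, mu i = n

/-- The coefficient of `q ^ n` in `F_lam`. -/
noncomputable def coeffF {b : ℕ} (lam : Fin b → ℕ) (n : ℕ) : ℕ :=
  Nat.card {mu : Fin b → ℕ // IsDistinctPartitionIn lam n mu}

/-- For every `b ≥ 5` there are `ε > 0` and `N` such that for every partition `lam` with exactly
`b` distinct parts, largest part at least `N` and smallest part larger than `(1 - ε)` times the
largest part, the coefficient sequence of `F_lam` is unimodal: weakly increasing up to some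
index `t` and weakly decreasing from `t` on. -/
theorem result : ∀ (b : ℕ) (hb : 5 ≤ b), ∃ ε : ℝ, 0 < ε ∧ ∃ N : ℕ, ∀ lam : Fin b → ℕ,
    StrictAnti lam → (∀ i, 0 < lam i) → N ≤ lam ⟨0, by omega⟩ →
    (1 - ε) * (lam ⟨0, by omega⟩ : ℝ) < (lam ⟨b - 1, by omega⟩ : ℝ) →
    ∃ t : ℕ, (∀ n, n < t → coeffF lam n ≤ coeffF lam (n + 1)) ∧
      (∀ n, t ≤ n → coeffF lam (n + 1) ≤ coeffF lam n) := by
  open Pool.Agent.R653.UF in
  exact t_FIN (t_REC (t_APP t_NEWT t_SUP (t_BND t_NEWT t_SUP)) t_ANTI (t_LOW t_ANTI))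
    (t_PERT t_DEC t_WIN t_SUP (t_BND t_NEWT t_SUP)) t_BOT t_TOP t_BRI

end Pool.Agent.Results.MP_71be06_co.NearRectangular
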